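import Mathlib
import Pool.Agent.H.MP_60b600_ag.A

namespace Pool.Agent.Results.MP_60b600_ag.No

open MvPolynomial Pool.Agent.H.MP_60b600_ag

/-- The Schmidt rank of a polynomial `P` of degree `d`: the least `r` with `P = ∑_{i<r} Q_i R_i`,
all `Q_i`, `R_i` of total degree `< d`. -/
noncomputable def rk {K : Type} [Field K] {n : ℕ} (d : ℕ) (P : MvPolynomial (Fin n) K) : ℕ :=
  sInf {r : ℕ | ∃ Q R : Fin r → MvPolynomial (Fin n) K,
    (∀ i, (Q i).totalDegree < d) ∧ (∀ i, (R i).totalDegree < d) ∧ P = ∑ i, Q i * R i}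

/-- The Zariski topology on the `K`-points of affine `m`-space: induced from `Spec K[s₁,…,s_m]`
along the map sending a point to its maximal ideal. -/
@[reducible] noncomputable def zariski (K : Type) [Field K] (m : ℕ) :
    TopologicalSpace (Fin m → K) :=
  TopologicalSpace.induced (pointToPoint (k := K)) inferInstance

/-- The family, with coefficients in `ℂ[x, y]`; variables `a,b,c,p,q,r,z = X 0, …, X 6`. -/
noncomputable def fam : MvPolynomial (Fin 7) (MvPolynomial (Fin 2) ℂ) :=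
  X 0 ^ 2 + 2 * X 3 * X 0 * X 1 + X 4 * X 1 ^ 2 + X 5 * X 2 ^ 2
    + (X 4 - X 3 ^ 2) * (C (X 1 ^ 2) * X 5 + C (X 0 * X 1) * X 6)

section deg
variable {A : Type} [CommRing A] [Nontrivial A]

theorem dadd {p q : MvPolynomial (Fin 7) A} {k : ℕ} (hp : p.totalDegree ≤ k)
    (hq : q.totalDegree ≤ k) : (p + q).totalDegree ≤ k :=
  (totalDegree_add p q).trans (max_le hp hq)

theorem dsub {p q : MvPolynomial (Fin 7) A} {k : ℕ} (hp : p.totalDegree ≤ k)
    (hq : q.totalDegree ≤ k) : (p - q).totalDegree ≤ k :=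
  (totalDegree_sub p q).trans (max_le hp hq)

theorem dmul {p q : MvPolynomial (Fin 7) A} {k : ℕ} (i j : ℕ) (hp : p.totalDegree ≤ i)
    (hq : q.totalDegree ≤ j) (h : i + j ≤ k) : (p * q).totalDegree ≤ k :=
  (totalDegree_mul p q).trans (by omega)

theorem dX (i : Fin 7) {k : ℕ} (h : 1 ≤ k) : (X i : MvPolynomial (Fin 7) A).totalDegree ≤ k := by
  rw [totalDegree_X]; exact h

theorem dX2 (i : Fin 7) {k : ℕ} (h : 2 ≤ k) :
    (X i ^ 2 : MvPolynomial (Fin 7) A).totalDegree ≤ k := by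
  rw [totalDegree_X_pow]; exact h

theorem dC (c : A) {k : ℕ} : (C c : MvPolynomial (Fin 7) A).totalDegree ≤ k := by
  rw [totalDegree_C]; exact Nat.zero_le _

theorem dXX (i j : Fin 7) {k : ℕ} (h : 2 ≤ k) :
    (X i * X j : MvPolynomial (Fin 7) A).totalDegree ≤ k :=
  dmul 1 1 (dX i le_rfl) (dX j le_rfl) h

theorem dCm (c : A) {p : MvPolynomial (Fin 7) A} {k : ℕ} (h : p.totalDegree ≤ k) :
    (C c * p).totalDegree ≤ k :=
  dmul 0 k (dC c) h (by omega)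

end deg

theorem fam_deg : fam.totalDegree ≤ 3 := by
  unfold fam
  have h2 : (2 : MvPolynomial (Fin 7) (MvPolynomial (Fin 2) ℂ)) = C 2 := rfl
  refine dadd (dadd (dadd (dadd (dX2 _ (by norm_num)) ?_) ?_) ?_) ?_
  · rw [h2]
    exact dmul 2 1 (dmul 1 1 (dCm _ (dX _ le_rfl)) (dX _ le_rfl) le_rfl) (dX _ le_rfl) le_rfl
  · exact dmul 1 2 (dX _ le_rfl) (dX2 _ le_rfl) le_rfl
  · exact dmul 1 2 (dX _ le_rfl) (dX2 _ le_rfl) le_rfl
  · exact dmul 2 1 (dsub (dX _ (by norm_num)) (dX2 _ le_rfl))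
      (dadd (dCm _ (dX _ le_rfl)) (dCm _ (dX _ le_rfl))) le_rfl

theorem eval_fam (s : Fin 2 → ℂ) (v : V) : eval v (map (eval s) fam)
    = ff v + (v 4 - v 3 ^ 2) * (s 1 ^ 2 * v 5 + s 0 * s 1 * v 6) := by
  have h2 : (2 : MvPolynomial (Fin 7) (MvPolynomial (Fin 2) ℂ)) = C (C 2) := rfl
  simp only [fam, h2, map_add, map_mul, map_sub, map_pow, map_X, map_C, eval_X, eval_C, ff, Cf]
  ring

theorem deg_fam (s : Fin 2 → ℂ) : (map (eval s) fam).totalDegree = 3 := by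
  apply le_antisymm
  · refine le_trans ?_ fam_deg
    exact Finset.sup_mono (support_map_subset _ _)
  · by_contra hlt
    obtain ⟨A, l, α, hA, -, h⟩ := dec (map (eval s) fam) (by omega)
    have key : ∀ t : ℂ, t ^ 3 = t ^ 2 * eval (e 4 + e 1) A + t * l (e 4 + e 1) + α := by
      intro t
      have := h (t • (e 4 + e 1))
      rw [hom_eval hA, map_smul, eval_fam, smul_eq_mul] at this
      rw [← this]
      simp [ff, Cf, e]
      ring
    have : (6 : ℂ) = 0 := by linear_combination key 2 - 3 * key 1 + 3 * key 0 - key (-1)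
    norm_num at this

/-- the admissible lengths -/
def S (P : R) : Set ℕ := {r : ℕ | ∃ Q R : Fin r → MvPolynomial (Fin 7) ℂ,
    (∀ i, (Q i).totalDegree < 3) ∧ (∀ i, (R i).totalDegree < 3) ∧ P = ∑ i, Q i * R i}

theorem mem2 {P Q1 R1 Q2 R2 : R} (d1 : Q1.totalDegree ≤ 2) (d2 : R1.totalDegree ≤ 2)
    (d3 : Q2.totalDegree ≤ 2) (d4 : R2.totalDegree ≤ 2)
    (h : ∀ v, eval v P = eval v (Q1 * R1 + Q2 * R2)) : 2 ∈ S P := by
  refine ⟨![Q1, Q2], ![R1, R2], fun i => ?_, fun i => ?_, ?_⟩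
  · fin_cases i <;> simp <;> omega
  · fin_cases i <;> simp <;> omega
  · rw [MvPolynomial.funext h]; simp [Fin.sum_univ_two]

theorem mem3 {P Q1 R1 Q2 R2 Q3 R3 : R} (d1 : Q1.totalDegree ≤ 2) (d2 : R1.totalDegree ≤ 2)
    (d3 : Q2.totalDegree ≤ 2) (d4 : R2.totalDegree ≤ 2)
    (d5 : Q3.totalDegree ≤ 2) (d6 : R3.totalDegree ≤ 2)
    (h : ∀ v, eval v P = eval v (Q1 * R1 + Q2 * R2 + Q3 * R3)) : 3 ∈ S P := by
  refine ⟨![Q1, Q2, Q3], ![R1, R2, R3], fun i => ?_, fun i => ?_, ?_⟩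
  · fin_cases i <;> simp <;> omega
  · fin_cases i <;> simp <;> omega
  · rw [MvPolynomial.funext h]; simp [Fin.sum_univ_three]

theorem dF1 (c : ℂ) : (X 0 + X 3 * X 1 + C c * (X 1 * X 2) : R).totalDegree ≤ 2 :=
  dadd (dadd (dX _ (by norm_num)) (dXX _ _ le_rfl)) (dCm _ (dXX _ _ le_rfl))

theorem dF2 (c : ℂ) : (X 1 ^ 2 + C c * X 5 : R).totalDegree ≤ 2 :=
  dadd (dX2 _ le_rfl) (dCm _ (dX _ (by norm_num)))

theorem dF3 (c : ℂ) : (X 4 - X 3 ^ 2 + C c * X 2 ^ 2 : R).totalDegree ≤ 2 :=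
  dadd (dsub (dX _ (by norm_num)) (dX2 _ le_rfl)) (dCm _ (dX2 _ le_rfl))

theorem two_mem (s : Fin 2 → ℂ) (h0 : s 0 = 0) (h1 : s 1 ≠ 0) : 2 ∈ S (map (eval s) fam) := by
  refine mem2 (dF1 (-(s 1)⁻¹)) (dF1 (s 1)⁻¹) (dF2 (s 1 ^ 2)) (dF3 ((s 1)⁻¹ ^ 2)) fun v => ?_
  rw [eval_fam, h0]
  simp only [ff, Cf, map_add, map_mul, map_sub, map_pow, eval_X, eval_C]
  field_simp
  ring

theorem three_mem (s : Fin 2 → ℂ) : 3 ∈ S (map (eval s) fam) := by
  by_cases h1 : s 1 = 0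
  · refine mem3 (Q1 := X 0) (R1 := X 0) (Q2 := X 1) (R2 := C 2 * (X 3 * X 0) + X 4 * X 1)
      (Q3 := X 2) (R3 := X 5 * X 2) (dX _ (by norm_num)) (dX _ (by norm_num))
      (dX _ (by norm_num)) (dadd (dCm _ (dXX _ _ le_rfl)) (dXX _ _ le_rfl))
      (dX _ (by norm_num)) (dXX _ _ le_rfl) fun v => ?_
    rw [eval_fam, h1]
    simp only [ff, Cf, map_add, map_mul, eval_X, eval_C]
    ring
  · refine mem3 (Q3 := X 4 - X 3 ^ 2) (R3 := C (s 0 * s 1) * X 6)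
      (dF1 (-(s 1)⁻¹)) (dF1 (s 1)⁻¹) (dF2 (s 1 ^ 2)) (dF3 ((s 1)⁻¹ ^ 2))
      (dsub (dX _ (by norm_num)) (dX2 _ le_rfl)) (dCm _ (dX _ (by norm_num))) fun v => ?_
    rw [eval_fam]
    simp only [ff, Cf, map_add, map_mul, map_sub, map_pow, eval_X, eval_C]
    field_simp
    ring

/-- the linear substitution `z ↦ c r` -/
noncomputable def sb (c : ℂ) : Fin 7 → R := fun i => if i = 6 then C c * X 5 else X i

theorem sb_hom (c : ℂ) (i : Fin 7) : (sb c i).IsHomogeneous 1 := by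
  unfold sb
  split_ifs
  · exact isHomogeneous_C_mul_X _ _
  · exact isHomogeneous_X _ _

theorem sb_deg (c : ℂ) (Q : R) (h : Q.totalDegree < 3) : (aeval (sb c) Q).totalDegree < 3 := by
  rw [sum3 Q h, map_add, map_add]
  have g : ∀ n, n ≤ 2 → (aeval (sb c) (homogeneousComponent n Q)).totalDegree ≤ 2 := fun n hn =>
    (((homogeneousComponent_isHomogeneous n Q).aeval _ (sb_hom c)).totalDegree_le).trans (by omega)
  have := dadd (dadd (g 0 (by norm_num)) (g 1 (by norm_num))) (g 2 le_rfl)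
  omega

theorem eval_sb (c : ℂ) (Q : R) (v : V) :
    eval v (aeval (sb c) Q) = eval (fun i => eval v (sb c i)) Q := by
  induction Q using MvPolynomial.induction_on with
  | C a => simp
  | add p q hp hq => simp only [map_add, hp, hq]
  | mul_X p i hp => simp only [map_mul, hp, aeval_X, eval_X]

theorem not_two (s : Fin 2 → ℂ) (hs : ¬ (s 0 = 0 ∧ s 1 ≠ 0)) (Q1 R1 Q2 R2 : R)
    (d1 : Q1.totalDegree < 3) (d2 : R1.totalDegree < 3)
    (d3 : Q2.totalDegree < 3) (d4 : R2.totalDegree < 3)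
    (h : map (eval s) fam = Q1 * R1 + Q2 * R2) : False := by
  refine notTwo _ _ _ _ (sb_deg (-(s 1 / s 0)) _ d1) (sb_deg (-(s 1 / s 0)) _ d2)
    (sb_deg (-(s 1 / s 0)) _ d3) (sb_deg (-(s 1 / s 0)) _ d4) fun v => ?_
  simp only [← map_mul, ← map_add]
  rw [← h, eval_sb, eval_fam]
  have hz : s 1 ^ 2 * v 5 + s 0 * s 1 * (-(s 1 / s 0) * v 5) = 0 := by
    by_cases h1 : s 1 = 0
    · rw [h1]; ring
    · have h0 : s 0 ≠ 0 := fun h0 => hs ⟨h0, h1⟩
      field_simp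
      ring
  simp [sb, ff, Cf]
  right
  linear_combination hz

theorem rk_le (s : Fin 2 → ℂ) : rk 3 (map (eval s) fam) ≤ 3 := Nat.sInf_le (three_mem s)

theorem rk_two (s : Fin 2 → ℂ) (h0 : s 0 = 0) (h1 : s 1 ≠ 0) : rk 3 (map (eval s) fam) ≤ 2 :=
  Nat.sInf_le (two_mem s h0 h1)

theorem rk_three (s : Fin 2 → ℂ) (hs : ¬ (s 0 = 0 ∧ s 1 ≠ 0)) : rk 3 (map (eval s) fam) = 3 := by
  apply le_antisymm (rk_le s)
  by_contra hlt
  have hm : rk 3 (map (eval s) fam) ∈ S (map (eval s) fam) := Nat.sInf_mem ⟨3, three_mem s⟩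
  generalize rk 3 (map (eval s) fam) = r at hlt hm
  obtain ⟨Q, R, hQ, hR, h⟩ := hm
  have z : (0 : MvPolynomial (Fin 7) ℂ).totalDegree < 3 := by simp
  have hr : r = 0 ∨ r = 1 ∨ r = 2 := by omega
  rcases hr with rfl | rfl | rfl
  · exact not_two s hs 0 0 0 0 z z z z (by rw [h]; simp)
  · exact not_two s hs (Q 0) (R 0) 0 0 (hQ 0) (hR 0) z z (by rw [h]; simp)
  · exact not_two s hs (Q 0) (R 0) (Q 1) (R 1) (hQ 0) (hR 0) (hQ 1) (hR 1)
      (by rw [h]; simp [Fin.sum_univ_two])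

theorem locus : {t : Fin 2 → ℂ | ∀ s, rk 3 (map (eval s) fam) ≤ rk 3 (map (eval t) fam)}
    = {t | ¬ (t 0 = 0 ∧ t 1 ≠ 0)} := by
  ext t
  simp only [Set.mem_ofPred_eq]
  constructor
  · rintro h ⟨h0, h1⟩
    have a := h 0
    rw [rk_three 0 (by simp)] at a
    have b := rk_two t h0 h1
    omega
  · intro h s
    rw [rk_three t h]
    exact rk_le s

theorem closed_iff {Z : Set (Fin 2 → ℂ)} (h : @IsClosed _ (zariski ℂ 2) Z) :
    ∃ T : Set (MvPolynomial (Fin 2) ℂ), ∀ s, s ∈ Z ↔ ∀ f ∈ T, eval s f = 0 := by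
  obtain ⟨W, hW, rfl⟩ := isClosed_induced_iff.mp h
  obtain ⟨T, rfl⟩ := (PrimeSpectrum.isClosed_iff_zeroLocus W).mp hW
  refine ⟨T, fun s => ?_⟩
  rw [Set.mem_preimage, PrimeSpectrum.mem_zeroLocus]
  constructor
  · intro h f hf
    exact (mem_vanishingIdeal_singleton_iff s f).mp (h hf)
  · intro h f hf
    exact (mem_vanishingIdeal_singleton_iff s f).mpr (h f hf)

theorem not_lc : ¬ @IsLocallyClosed _ (zariski ℂ 2) {t | ¬ (t 0 = 0 ∧ t 1 ≠ 0)} := by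
  rintro ⟨O, Z, hO, hZ, h⟩
  obtain ⟨T, hT⟩ := closed_iff hZ
  obtain ⟨T', hT'⟩ := closed_iff (@IsOpen.isClosed_compl _ (zariski ℂ 2) O hO)
  have hm : ∀ t : Fin 2 → ℂ, ¬ (t 0 = 0 ∧ t 1 ≠ 0) ↔ t ∈ O ∧ t ∈ Z := fun t =>
    Set.ext_iff.mp h t
  have hZ' : ∀ t, t ∈ Z := by
    intro t
    rw [hT]
    intro f hf
    have : f * X 0 = 0 := by
      apply MvPolynomial.funext
      intro s
      by_cases h0 : s 0 = 0
      · simp [h0]
      · have := (hT s).mp ((hm s).mp fun h => h0 h.1).2 f hf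
        simp [this]
    rw [(mul_eq_zero.mp this).resolve_right (X_ne_zero _)]
    simp
  have h00 : (0 : Fin 2 → ℂ) ∈ O := ((hm 0).mp (by simp)).1
  refine (hT' 0).mpr (fun f hf => ?_) h00
  have ev : ∀ (s : Fin 2 → ℂ) (g : MvPolynomial (Fin 2) ℂ),
      eval s (aeval (![0, X 1] : Fin 2 → MvPolynomial (Fin 2) ℂ) g) = eval ![0, s 1] g := by
    intro s g
    induction g using MvPolynomial.induction_on with
    | C a => simp
    | add p q hp hq => simp only [map_add, hp, hq]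
    | mul_X p i hp =>
      simp only [map_mul, hp, aeval_X, eval_X]
      fin_cases i <;> simp
  have : aeval (![0, X 1] : Fin 2 → MvPolynomial (Fin 2) ℂ) f * X 1 = 0 := by
    apply MvPolynomial.funext
    intro s
    by_cases h1 : s 1 = 0
    · simp [h1]
    · have hO' : (![0, s 1] : Fin 2 → ℂ) ∈ Oᶜ := fun ho =>
        (hm _).mpr ⟨ho, hZ' _⟩ ⟨by simp, by simpa using h1⟩
      rw [map_mul, ev, (hT' _).mp hO' f hf]
      simp
  have h2 := ev 0 f
  rw [(mul_eq_zero.mp this).resolve_right (X_ne_zero _)] at h2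
  have h3 : (![0, (0 : Fin 2 → ℂ) 1] : Fin 2 → ℂ) = 0 := by
    ext i; fin_cases i <;> simp
  rw [h3] at h2
  rw [← h2]; simp

theorem result : ∃ P : MvPolynomial (Fin 7) (MvPolynomial (Fin 2) ℂ),
    P.totalDegree ≤ 3 ∧ (∀ s : Fin 2 → ℂ, (map (eval s) P).totalDegree = 3) ∧
    ¬ @IsLocallyClosed _ (zariski ℂ 2)
      {t : Fin 2 → ℂ | ∀ s, rk 3 (map (eval s) P) ≤ rk 3 (map (eval t) P)} := by
  refine ⟨fam, fam_deg, deg_fam, ?_⟩
  rw [locus]
  exact not_lc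

end Pool.Agent.Results.MP_60b600_ag.No
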